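import Pool.Agent.Helper7.Simplex.Core

open MeasureTheory Matrix
open scoped ENNReal

namespace Pool.Agent.Results.MP_3bca80_gt.Filliman

section defs

variable {V : Type*} [NormedAddCommGroup V] [InnerProductSpace ℝ V]

/-- `v` lists the vertices of a regular simplex of edge length `√2`. -/
def IsRegularSimplex {n : ℕ} (v : Fin (n + 1) → V) : Prop :=
  ∀ i j, i ≠ j → dist (v i) (v j) = √2

/-- The span `W` of all differences of vertices lying in a common block. -/
def blockSpan {n k : ℕ} (v : Fin (n + 1) → V) (p : Fin (n + 1) → Fin (k + 1)) : Submodule ℝ V :=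
  Submodule.span ℝ {x | ∃ i j, p i = p j ∧ x = v i - v j}

/-- The `k`-dimensional volume of the orthogonal projection of `K` onto the subspace `E`.
Here `μHE[k]` is Mathlib's `k`-dimensional Hausdorff measure, normalised so that it is Lebesgue
measure on `k`-dimensional Euclidean spaces, and `E.starProjection` is the orthogonal
projection onto `E`. -/
noncomputable def projVol [FiniteDimensional ℝ V] [MeasurableSpace V] [BorelSpace V]
    (k : ℕ) (E : Submodule ℝ V) (K : Set V) : ℝ≥0∞ :=
  μHE[k] (E.starProjection '' K)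

end defs

/-- `p` assigns the `n + 1` vertices to `k + 1` blocks and every block has size `ℓ` or `ℓ + 1`,
where `ℓ` is the integer part of `(n + 1) / (k + 1)`.  As the sizes add up to `n + 1`, exactly
`r = (n + 1) mod (k + 1)` blocks have size `ℓ + 1`. -/
def IsBalanced {n k : ℕ} (p : Fin (n + 1) → Fin (k + 1)) : Prop :=
  ∀ a, (Finset.univ.filter (fun i => p i = a)).card = (n + 1) / (k + 1) ∨
    (Finset.univ.filter (fun i => p i = a)).card = (n + 1) / (k + 1) + 1

variable {V : Type*} [NormedAddCommGroup V] [InnerProductSpace ℝ V] [FiniteDimensional ℝ V]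
  [MeasurableSpace V] [BorelSpace V]

open Pool.Agent.Helper7.Simplex in
theorem lower (n k : ℕ) (hkn : k ≤ n) (hV : Module.finrank ℝ V = n)
    (v : Fin (n + 1) → V) (hv : IsRegularSimplex v)
    (E : Submodule ℝ V) (hE : Module.finrank ℝ E = k) :
    ENNReal.ofReal (√((n : ℝ) + 1) * Real.exp (-(((n + 1 : ℕ) : ℝ) * Ab ((n + 1) / (k + 1) + 1) +
      ((k + 1 : ℕ) : ℝ) * Bb ((n + 1) / (k + 1) + 1)) / 2)) ≤
    (k.factorial : ℝ≥0∞) * projVol k E (convexHull ℝ (Set.range v)) := by
  have hf := J7761.R_frame hV v hv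
  obtain ⟨x, hx, hx0, hx1, -⟩ := J7762.R_coord v hf E hE
  have hx' : projVol k E (convexHull ℝ (Set.range v)) = volume (convexHull ℝ (Set.range x)) := hx
  rw [hx', ← J7759.V_vol x]
  have hl : 1 ≤ (n + 1) / (k + 1) := Nat.div_pos (by omega) (by omega)
  have hN : n + 1 ≤ ((n + 1) / (k + 1) + 1) * (k + 1) := by
    have := Nat.div_add_mod (n + 1) (k + 1)
    have h2 := Nat.mod_lt (n + 1) (show 0 < k + 1 by omega)
    nlinarith
  have hd := J7763.R_det x hx0 hx1
  have hc := core (fun i => (Matrix.vecCons 1 (x i) : Fin (k + 1) → ℝ)) (Pi.single 0 1)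
    (fun i => by simp) ((n + 1) / (k + 1) + 1) (by omega)
    (by rw [Fintype.card_fin]; exact hN) (by rw [hd, Fintype.card_fin]; positivity)
  rw [hd, Fintype.card_fin] at hc
  have e : (((n + 1 : ℕ) : ℝ)) = (n : ℝ) + 1 := by push_cast; ring
  rw [e] at hc
  rw [e]
  exact hc

open Pool.Agent.Helper7.Simplex in
theorem star (n k : ℕ) (hkn : k ≤ n) (hV : Module.finrank ℝ V = n)
    (v : Fin (n + 1) → V) (hv : IsRegularSimplex v)
    (p : Fin (n + 1) → Fin (k + 1)) (hp : IsBalanced p) :
    Module.finrank ℝ (blockSpan v p)ᗮ = k ∧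
    (k.factorial : ℝ≥0∞) * projVol k (blockSpan v p)ᗮ (convexHull ℝ (Set.range v)) =
    ENNReal.ofReal (√((n : ℝ) + 1) * Real.exp (-(((n + 1 : ℕ) : ℝ) * Ab ((n + 1) / (k + 1) + 1) +
      ((k + 1 : ℕ) : ℝ) * Bb ((n + 1) / (k + 1) + 1)) / 2)) := by
  have hf := J7761.R_frame hV v hv
  have hl : 1 ≤ (n + 1) / (k + 1) := Nat.div_pos (by omega) (by omega)
  have hsurj : Function.Surjective p := by
    intro a
    have h1 : 0 < (Finset.univ.filter (fun i => p i = a)).card := by
      rcases hp a with h | h <;> omega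
    obtain ⟨i, hi⟩ := Finset.card_pos.mp h1
    exact ⟨i, (Finset.mem_filter.mp hi).2⟩
  have hF : Module.finrank ℝ (blockSpan v p)ᗮ = k :=
    J7764.R_finrank hV v hv hf p hsurj
  refine ⟨hF, ?_⟩
  obtain ⟨x, hx, hx0, hx1, hxp⟩ := J7762.R_coord v hf (blockSpan v p)ᗮ hF
  have hx' : projVol k (blockSpan v p)ᗮ (convexHull ℝ (Set.range v)) =
    volume (convexHull ℝ (Set.range x)) := hx
  have hxe : ∀ i j, p i = p j → x i = x j := by
    intro i j hij
    apply hxp
    apply Submodule.le_orthogonal_orthogonal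
    exact Submodule.subset_span ⟨i, j, hij, rfl⟩
  let s : Fin (k + 1) → Fin (n + 1) := Function.surjInv hsurj
  have hs : ∀ a, p (s a) = a := Function.surjInv_eq hsurj
  let z : Fin (k + 1) → Fin k → ℝ := fun a => x (s a)
  have hz : ∀ i, z (p i) = x i := fun i => hxe _ _ (hs _)
  have hrange : Set.range x = Set.range z := by
    ext y
    constructor
    · rintro ⟨i, rfl⟩
      exact ⟨p i, hz i⟩
    · rintro ⟨a, rfl⟩
      exact ⟨s a, rfl⟩
  let w : Fin (k + 1) → Fin (k + 1) → ℝ := fun a => Matrix.vecCons 1 (z a)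
  have hd := J7763.R_det x hx0 hx1
  have hb := J7763.R_block p w
  have hw : ∀ i, w (p i) = (Matrix.vecCons 1 (x i) : Fin (k + 1) → ℝ) := by
    intro i
    simp only [w, hz]
  simp only [hw] at hb
  rw [hd, Fintype.card_fin] at hb
  have hsum : ∑ a, (Finset.univ.filter (fun i => p i = a)).card = n + 1 := by
    have := Finset.card_eq_sum_card_fiberwise (f := p) (s := Finset.univ) (t := Finset.univ)
      (fun i _ => Finset.mem_coe.mpr (Finset.mem_univ _))
    rw [← this, Finset.card_univ, Fintype.card_fin]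
  have hprod := J7765.R_prod hl (fun a => (Finset.univ.filter (fun i => p i = a)).card) hp
  rw [hsum] at hprod
  rw [hx', hrange, ← J7759.V_vol z, J7760.V_simplex (fun a => (Matrix.vecCons 1 (z a) :
    Fin (k + 1) → ℝ)) (Pi.single 0 1) (fun i => by simp)]
  congr 1
  set X := (((n + 1 : ℕ) : ℝ) * Ab ((n + 1) / (k + 1) + 1) +
      ((k + 1 : ℕ) : ℝ) * Bb ((n + 1) / (k + 1) + 1)) with hX
  rw [← hprod] at hb
  have hb' : ((n : ℝ) + 1) = Real.exp X * (Matrix.of w).det ^ 2 := by
    rw [← hb]; push_cast; ring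
  have h1 : |(Matrix.of w).det| = √((Matrix.of w).det ^ 2) := (Real.sqrt_sq_eq_abs _).symm
  have h2 : √((n : ℝ) + 1) = Real.exp (X / 2) * |(Matrix.of w).det| := by
    rw [hb', Real.sqrt_mul (Real.exp_pos X).le, Real.sqrt_sq_eq_abs]
    congr 1
    rw [Real.sqrt_eq_iff_mul_self_eq (Real.exp_pos X).le (Real.exp_pos _).le, ← Real.exp_add]
    congr 1
    ring
  change |(Matrix.of w).det| = _
  rw [h2]
  have h3 : Real.exp (X / 2) * Real.exp (-X / 2) = 1 := by
    rw [← Real.exp_add]
    have : X / 2 + -X / 2 = 0 := by ring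
    rw [this, Real.exp_zero]
  linear_combination (-|(Matrix.of w).det|) * h3

/-- Filliman's conjecture on projections of minimal volume of the regular simplex: among all
orthogonal projections of a regular `n`-simplex onto `k`-dimensional subspaces, the projection
`T_*` onto the orthogonal complement of the span of the differences inside the blocks of a balanced
partition has the least `k`-dimensional volume.  Here `V` is any `n`-dimensional Euclidean space,
for instance `ℝⁿ`. -/
theorem result {V : Type*} [NormedAddCommGroup V] [InnerProductSpace ℝ V] [FiniteDimensional ℝ V]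
    [MeasurableSpace V] [BorelSpace V] (n k : ℕ) (hV : Module.finrank ℝ V = n)
    (_hk : 1 ≤ k) (hkn : k ≤ n)
    (v : Fin (n + 1) → V) (hv : IsRegularSimplex v)
    (p : Fin (n + 1) → Fin (k + 1)) (hp : IsBalanced p)
    (E : Submodule ℝ V) (hE : Module.finrank ℝ E = k) :
    Module.finrank ℝ (blockSpan v p)ᗮ = k ∧
    projVol k (blockSpan v p)ᗮ (convexHull ℝ (Set.range v)) ≤
      projVol k E (convexHull ℝ (Set.range v)) := by
  obtain ⟨h1, h2⟩ := star n k hkn hV v hv p hp
  refine ⟨h1, ?_⟩
  have h3 := lower n k hkn hV v hv E hE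
  rw [← h2] at h3
  exact (ENNReal.mul_le_mul_iff_right (by exact_mod_cast (Nat.factorial_ne_zero k))
    (ENNReal.natCast_ne_top _)).mp h3

end Pool.Agent.Results.MP_3bca80_gt.Filliman
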